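import Mathlib
import Pool.Agent.Helper26.HI.Defs

/-!
# HI, block HC7': zeros of a polynomial modulo `p` (Schwartz-Zippel)
-/

set_option autoImplicit false

namespace Pool.Agent.Helper26.HI

open MvPolynomial

private theorem sz30 {r : ℕ} (p : ℕ) [Fact p.Prime] (D : MvPolynomial (Fin r) (ZMod p)) (hD : D ≠ 0) (d : ℕ) (hd : D.totalDegree ≤ d) :
    p * ((Finset.univ : Finset (Fin r → ZMod p)).filter fun f => eval f D = 0).card ≤ d * p ^ r := by
  classical
  have h := schwartz_zippel_totalDegree hD (Finset.univ : Finset (ZMod p))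
  have h1 : (Fintype.piFinset fun _ : Fin r => (Finset.univ : Finset (ZMod p))) = Finset.univ := by
    ext f
    simp
  rw [h1, Finset.card_univ, ZMod.card] at h
  have hp : (0 : ℚ≥0) < (p : ℚ≥0) := by
    exact_mod_cast (Fact.out : p.Prime).pos
  rw [div_le_div_iff₀ (pow_pos hp r) hp] at h
  have h2 : ((Finset.univ : Finset (Fin r → ZMod p)).filter fun f => eval f D = 0).card * p ≤ D.totalDegree * p ^ r := by
    exact_mod_cast h
  calc p * ((Finset.univ : Finset (Fin r → ZMod p)).filter fun f => eval f D = 0).card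
      = ((Finset.univ : Finset (Fin r → ZMod p)).filter fun f => eval f D = 0).card * p := Nat.mul_comm _ _
    _ ≤ D.totalDegree * p ^ r := h2
    _ ≤ d * p ^ r := Nat.mul_le_mul_right _ hd

private theorem evalmap30 {r : ℕ} (p : ℕ) (Δ : MvPolynomial (Fin r) ℤ) (t : Fin r → ℤ) :
    eval (fun k => (t k : ZMod p)) (MvPolynomial.map (Int.castRingHom (ZMod p)) Δ) = ((eval t Δ : ℤ) : ZMod p) := by
  rw [eval_map]
  have h : (eval t Δ : ℤ) = eval₂ (RingHom.id ℤ) t Δ := rfl
  rw [h, ← eq_intCast (Int.castRingHom (ZMod p)), eval₂_comp_left]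
  rfl

/-- **HC7'**: zeros of a polynomial modulo `p` -/
theorem sing_count {r : ℕ} (Δ : MvPolynomial (Fin r) ℤ) (hΔ : Δ ≠ 0) : ∃ p₀ C : ℕ, ∀ p, p.Prime → p₀ ≤ p →
    ∀ h : ℕ, p * ((box r (p * h)).filter fun t : Fin r → ℕ => (p : ℤ) ∣ eval (fun k => (t k : ℤ)) Δ).card ≤
      C * (p * h) ^ r := by
  classical
  obtain ⟨s, hs⟩ := MvPolynomial.ne_zero_iff.1 hΔ
  refine ⟨(coeff s Δ).natAbs + 1, Δ.totalDegree, fun p hp hp0 h => ?_⟩
  have : Fact p.Prime := ⟨hp⟩
  let D : MvPolynomial (Fin r) (ZMod p) := MvPolynomial.map (Int.castRingHom (ZMod p)) Δ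
  have hD : D ≠ 0 := by
    intro h0
    have h1 : coeff s D = 0 := by rw [h0, coeff_zero]
    rw [coeff_map, eq_intCast, ZMod.intCast_zmod_eq_zero_iff_dvd] at h1
    have h2 := Int.natAbs_dvd_natAbs.2 h1
    rw [Int.natAbs_natCast] at h2
    have h3 := Nat.le_of_dvd (Int.natAbs_pos.2 hs) h2
    omega
  have hdeg : D.totalDegree ≤ Δ.totalDegree := by
    unfold MvPolynomial.totalDegree
    exact Finset.sup_mono (MvPolynomial.support_map_subset _ _)
  have hsz := sz30 p D hD Δ.totalDegree hdeg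
  set Z := (Finset.univ : Finset (Fin r → ZMod p)).filter fun f => eval f D = 0 with hZ
  have hcard : ((box r (p * h)).filter fun t : Fin r → ℕ => (p : ℤ) ∣ eval (fun k => (t k : ℤ)) Δ).card ≤ (box r h ×ˢ Z).card := by
    refine Finset.card_le_card_of_injOn (fun t => (fun k => t k / p, fun k => (t k : ZMod p))) ?_ ?_
    · intro t ht
      rw [Finset.mem_coe, Finset.mem_filter, mem_box] at ht
      rw [Finset.mem_coe, Finset.mem_product, mem_box, hZ, Finset.mem_filter]
      refine ⟨fun k => Nat.div_lt_of_lt_mul (ht.1 k), Finset.mem_univ _, ?_⟩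
      have h1 := evalmap30 p Δ (fun k => (t k : ℤ))
      have h2 : (fun k => (((t k : ℤ)) : ZMod p)) = fun k => (t k : ZMod p) := by
        funext k
        simp
      rw [h2] at h1
      show eval (fun k => (t k : ZMod p)) D = 0
      rw [h1, ZMod.intCast_zmod_eq_zero_iff_dvd]
      exact ht.2
    · intro t _ t' _ hh
      have h1 := congrArg Prod.fst hh
      have h2 := congrArg Prod.snd hh
      funext k
      have h3 : t k / p = t' k / p := congrFun h1 k
      have h4 : (t k : ZMod p) = (t' k : ZMod p) := congrFun h2 k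
      have h5 : t k % p = t' k % p := (ZMod.natCast_eq_natCast_iff' _ _ _).1 h4
      rw [← Nat.div_add_mod (t k) p, ← Nat.div_add_mod (t' k) p, h3, h5]
  rw [Finset.card_product, card_box] at hcard
  calc p * ((box r (p * h)).filter fun t : Fin r → ℕ => (p : ℤ) ∣ eval (fun k => (t k : ℤ)) Δ).card
      ≤ p * (h ^ r * Z.card) := Nat.mul_le_mul_left _ hcard
    _ = h ^ r * (p * Z.card) := by ring
    _ ≤ h ^ r * (Δ.totalDegree * p ^ r) := Nat.mul_le_mul_left _ hsz
    _ = Δ.totalDegree * (p * h) ^ r := by rw [mul_pow]; ring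

end Pool.Agent.Helper26.HI
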