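import Mathlib
import Pool.Agent.Helper26.HI.Defs

/-!
# HI, block HC7: zeros of a polynomial in an affine box (Schwartz-Zippel)
-/

set_option autoImplicit false

namespace Pool.Agent.Helper26.HI

open MvPolynomial

/-- **HC7**: zeros of a polynomial in an affine box -/
theorem sz_affine {r : ℕ} (R : MvPolynomial (Fin r) ℤ) (hR : R ≠ 0) (δ : ℕ) (hδ : R.totalDegree ≤ δ)
    (t₀ : Fin r → ℤ) (p h : ℕ) (hp : 0 < p) :
    h * ((box r h).filter fun u : Fin r → ℕ => eval (fun k => t₀ k + p * (u k : ℤ)) R = 0).card ≤ δ * h ^ r := by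
  classical
  rcases Nat.eq_zero_or_pos h with rfl | hh
  · simp
  have hp' : (p : ℤ) ≠ 0 := by exact_mod_cast hp.ne'
  have hinj : ∀ k : Fin r, Function.Injective fun u : ℕ => t₀ k + p * (u : ℤ) := by
    intro k u u' huu
    have h1 : t₀ k + p * (u : ℤ) = t₀ k + p * (u' : ℤ) := huu
    have h2 : (p : ℤ) * u = p * u' := by linarith
    exact_mod_cast mul_left_cancel₀ hp' h2
  let S : Fin r → Finset ℤ := fun k => (Finset.range h).image fun u : ℕ => t₀ k + p * (u : ℤ)
  have hS : ∀ k, (S k).card = h := fun k => by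
    rw [Finset.card_image_of_injective _ (hinj k), Finset.card_range]
  have h1 := schwartz_zippel_sup_sum hR S
  have h2 : (R.support.sup fun s => ∑ i, (s i / (S i).card : ℚ≥0)) ≤ (δ : ℚ≥0) / h := by
    refine Finset.sup_le fun s hs => ?_
    have h3 : (∑ i, (s i / (S i).card : ℚ≥0)) = ((∑ i, s i : ℕ) : ℚ≥0) / h := by
      rw [Nat.cast_sum, Finset.sum_div]
      refine Finset.sum_congr rfl fun i _ => ?_
      rw [hS]
    rw [h3]
    refine div_le_div_of_nonneg_right ?_ (by positivity)
    have h4 : (∑ i, s i) ≤ R.totalDegree := by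
      have := MvPolynomial.le_totalDegree hs
      rwa [Finsupp.sum_fintype _ _ (fun _ => rfl)] at this
    exact_mod_cast h4.trans hδ
  have h3 := h1.trans h2
  have h4 : (∏ i, ((S i).card : ℚ≥0)) = (h : ℚ≥0) ^ r := by
    rw [Finset.prod_congr rfl fun i _ => by rw [hS i], Finset.prod_const, Finset.card_univ, Fintype.card_fin]
  rw [h4] at h3
  have hh' : (0 : ℚ≥0) < (h : ℚ≥0) := by exact_mod_cast hh
  rw [div_le_div_iff₀ (pow_pos hh' r) hh'] at h3
  have h5 : ((Fintype.piFinset S).filter fun x => eval x R = 0).card * h ≤ δ * h ^ r := by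
    exact_mod_cast h3
  have h6 : ((box r h).filter fun u : Fin r → ℕ => eval (fun k => t₀ k + p * (u k : ℤ)) R = 0).card ≤
      ((Fintype.piFinset S).filter fun x => eval x R = 0).card := by
    refine Finset.card_le_card_of_injOn (fun u k => t₀ k + p * (u k : ℤ)) ?_ ?_
    · intro u hu
      rw [Finset.mem_coe, Finset.mem_filter, mem_box] at hu
      rw [Finset.mem_coe, Finset.mem_filter, Fintype.mem_piFinset]
      exact ⟨fun k => Finset.mem_image.2 ⟨u k, Finset.mem_range.2 (hu.1 k), rfl⟩, hu.2⟩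
    · intro u _ u' _ huu
      funext k
      exact hinj k (congrFun huu k)
  calc h * ((box r h).filter fun u : Fin r → ℕ => eval (fun k => t₀ k + p * (u k : ℤ)) R = 0).card
      ≤ h * ((Fintype.piFinset S).filter fun x => eval x R = 0).card := Nat.mul_le_mul_left _ h6
    _ = ((Fintype.piFinset S).filter fun x => eval x R = 0).card * h := Nat.mul_comm _ _
    _ ≤ δ * h ^ r := h5

end Pool.Agent.Helper26.HI
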